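import Pool.Agent.P8H99.GO.Stm

/-!
# Project OD, package GRD: connected structures of levels are graded orders

The lemmas `ord_cases`, `ord_lt`, `ord_le`, `isOrder_ord`, `isGrade_ord` are adapted from the starting file
`Pool.Agent.Results.MP_ac85ec_co.FourLevels`.
-/

set_option autoImplicit false

namespace Pool.Agent.P8H26.OD

open Finset
open Pool.Agent.P8H99.GO
open Pool.Agent.Results.MP_ac85ec_co.FourLevels (IsOrder Lt Covers IsGrade GradedWithLevels a ord)

variable {n : ℕ} {l : Fin n → ℕ} {c : Fin n → Finset (Fin n)}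

lemma ord_cases (h : ∀ p, ∀ x ∈ c p, l x + 1 = l p) {x y : Fin n} (hxy : ord c x y) :
    x = y ∨ (x ∈ c y) ∨ (∃ w, ord c x w ∧ x ≠ w ∧ w ∈ c y ∧ l x < l w) := by
  induction hxy with
  | refl => exact Or.inl rfl
  | @tail b y hb hby ih =>
    by_cases hxb : x = b
    · subst hxb; exact Or.inr (Or.inl hby)
    · refine Or.inr (Or.inr ⟨b, hb, hxb, hby, ?_⟩)
      rcases ih with h1 | h1 | ⟨w, -, -, hw, hlw⟩
      · exact absurd h1 hxb
      · have := h b x h1; omega
      · have := h b w hw; omega

lemma ord_lt (h : ∀ p, ∀ x ∈ c p, l x + 1 = l p) {x y : Fin n} (hxy : ord c x y) (hne : x ≠ y) :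
    l x < l y := by
  rcases ord_cases h hxy with h1 | h1 | ⟨w, -, -, hw, hlw⟩
  · exact absurd h1 hne
  · have := h y x h1; omega
  · have := h y w hw; omega

lemma ord_le (h : ∀ p, ∀ x ∈ c p, l x + 1 = l p) {x y : Fin n} (hxy : ord c x y) : l x ≤ l y := by
  by_cases hne : x = y
  · rw [hne]
  · exact (ord_lt h hxy hne).le

lemma isOrder_ord (h : ∀ p, ∀ x ∈ c p, l x + 1 = l p) : IsOrder (ord c) := by
  refine ⟨fun _ => Relation.ReflTransGen.refl, ?_, fun _ _ _ h1 h2 => h1.trans h2⟩
  intro x y hxy hyx
  by_contra hne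
  have h1 := ord_lt h hxy hne
  have h2 := ord_le h hyx
  omega

lemma isGrade_ord (h : ∀ p, ∀ x ∈ c p, l x + 1 = l p) {b : Fin n} (hb : l b = 0)
    (hE : ∀ p, Relation.EqvGen (fun x y => x ∈ c y) p b) : IsGrade (ord c) (fun p => l p + 1) where
  pos := fun p => by omega
  mono := fun p q hpq => by have := ord_le h hpq; simpa using this
  step := by
    intro p q hpq
    have key : p ∈ c q := by
      rcases ord_cases h hpq.1.1 with h1 | h1 | ⟨w, how, hne, hw, hlw⟩
      · exact absurd h1 hpq.1.2
      · exact h1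
      · exfalso
        apply hpq.2
        refine ⟨w, ⟨how, hne⟩, ⟨Relation.ReflTransGen.single hw, ?_⟩⟩
        intro hwq
        have := h q w hw
        rw [hwq] at this
        omega
    have := h q p key
    omega
  norm := by
    intro p
    refine ⟨b, ?_, by rw [hb]⟩
    have key : ∀ x y, Relation.EqvGen (fun x y => x ∈ c y) x y → Relation.EqvGen (ord c) x y := by
      intro x y hxy
      induction hxy with
      | rel x y hxy => exact Relation.EqvGen.rel _ _ (Relation.ReflTransGen.single hxy)
      | refl x => exact Relation.EqvGen.refl _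
      | symm x y _ ih => exact Relation.EqvGen.symm _ _ ih
      | trans x y z _ _ ih1 ih2 => exact Relation.EqvGen.trans _ _ _ ih1 ih2
    exact key p b (hE p)

theorem grd : S_GRD := by
  intro k n l c b ⟨h, hb, hE, hr⟩
  refine ⟨isOrder_ord h, _, isGrade_ord h hb hE, ?_⟩
  have h1 : Set.range (fun p => l p + 1) = (fun m : ℕ => m + 1) '' Set.range l := by
    rw [← Set.range_comp]
    rfl
  rw [h1, Set.ncard_image_of_injective _ (add_left_injective 1), hr, ← Finset.coe_range,
    Set.ncard_coe_finset, Finset.card_range]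

end Pool.Agent.P8H26.OD
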